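import Mathlib
import Pool.Agent.Work.MP_55ec57_gt.Main
import Pool.Agent.Work.MP_55ec57_gt.Final
import Pool.Agent.Work.MP_55ec57_gt.LieStructure

/-!
Every countably compact minimal Hausdorff topological group in which all closed zero-dimensional
subgroups are discrete is a compact real analytic group with an analytic manifold structure
compatible with its topology (a Lie group).
-/

set_option autoImplicit false

open Topology
open scoped ContDiff Manifold

namespace Pool.Agent.Results.MP_55ec57_gt.CountablyCompactMinimal

universe u

/-- The topology of `X` has a base consisting of clopen sets. -/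
def ZeroDim (X : Type u) [TopologicalSpace X] : Prop :=
  ∃ B : Set (Set X), TopologicalSpace.IsTopologicalBasis B ∧ ∀ s ∈ B, IsClopen s

/-- Property Z: every closed zero-dimensional subgroup is discrete. -/
def PropZ (G : Type u) [Group G] [TopologicalSpace G] : Prop :=
  ∀ H : Subgroup G, IsClosed (H : Set G) → ZeroDim H → DiscreteTopology H

/-- `G` is minimal: every continuous group isomorphism from `G` onto a Hausdorff topological
group is a homeomorphism. -/
def IsMinimal (G : Type u) [Group G] [TopologicalSpace G] : Prop :=
  ∀ (H : Type u) [Group H] [TopologicalSpace H] [IsTopologicalGroup H] [T2Space H] (f : G ≃* H),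
    Continuous f → IsHomeomorph f

/-- Every countably compact minimal Hausdorff topological group with property Z is compact and is
a real analytic Lie group (for its given topology). -/
theorem result (G : Type u) [Group G] [TopologicalSpace G] [IsTopologicalGroup G] [T2Space G]
    [CountablyCompactSpace G] (hmin : IsMinimal G) (hZ : PropZ G) :
    CompactSpace G ∧ ∃ (d : ℕ) (_ : ChartedSpace (EuclideanSpace ℝ (Fin d)) G),
      LieGroup (modelWithCornersSelf ℝ (EuclideanSpace ℝ (Fin d))) ω G := by
  obtain ⟨hc, n, ρ, hρ, hinj⟩ := Pool.Agent.MP55.compact_and_faithful (G := G) hmin hZ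
  exact ⟨hc, Pool.Agent.Work.MP_55ec57_gt.LieStructure.lieGroup_of_faithful n ρ hρ hinj⟩

end Pool.Agent.Results.MP_55ec57_gt.CountablyCompactMinimal
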